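import Mathlib

import Pool.Agent.Helper40.CX.H51EW.Defs
import Pool.Agent.Helper40.CX.H83EW.NoPoints
import Pool.Agent.Helper40.CX.H83VF.Fields
import Pool.Agent.Helper40.CX.H83VF.Kill
import Pool.Agent.Helper40.CX.Good

namespace CX

/-!
# Moving two points in the fibres of an isotrivial elliptic surface
-/

set_option linter.unusedSectionVars false

namespace Pool.Agent.Helper83.EW

open VC VF Function Pool.Agent.Helper51.EW

universe u

variable {k : Type u} [Field k] [IsAlgClosed k] [Good k]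

lemma induced_fst (X Y : Variety k) : Induced (X.prod Y) X Prod.fst := by
  intro K _ _ hK c
  exact ⟨c.1, fun v => rfl⟩

lemma induced_snd (X Y : Variety k) : Induced (X.prod Y) Y Prod.snd := by
  intro K _ _ hK c
  exact ⟨c.2, fun v => rfl⟩

lemma kills_sum {X Y : Variety k} {φ : X.Pt → ℂ} {ψ : Y.Pt → ℂ} (h : Kills X φ)
    (h' : Kills Y ψ) : Kills (X.prod Y) (fun z => φ z.1 + ψ z.2) :=
  (h.comp (induced_fst X Y)).add (h'.comp (induced_snd X Y))

variable {W : Wei k}

lemma neg_fixed {u : Fin 2 → k} {x : k} (hu : u ≠ 0)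
    (h : (0 : k) ^ 2 = x ^ 3 + MvPolynomial.aeval u W.A * x + MvPolynomial.aeval u W.B) :
    neg (apt W u x 0) = apt W u x 0 := by
  rw [neg_apt hu h, neg_zero]

/-- Two numbers with given sum and product. -/
lemma pair_eq {c₁ c₂ x x' : k} (hs : c₁ + c₂ = x + x') (hp : c₁ * c₂ = x * x') :
    (c₁ = x ∧ c₂ = x') ∨ (c₁ = x' ∧ c₂ = x) := by
  have h : (c₁ - x) * (c₁ - x') = 0 := by linear_combination c₁ * hs - hp
  rcases mul_eq_zero.mp h with h | h
  · left
    have h1 : c₁ = x := sub_eq_zero.mp h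
    exact ⟨h1, by linear_combination hs - h1⟩
  · right
    have h1 : c₁ = x' := sub_eq_zero.mp h
    exact ⟨h1, by linear_combination hs - h1⟩

end Pool.Agent.Helper83.EW

end CX
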