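import Mathlib
import Pool.Agent.Helper40.CX.H83EW.Lines
import Pool.Agent.Helper40.CX.Good2

namespace CX

/-!
# Lines
-/

set_option linter.unusedSectionVars false

namespace Pool.Agent.Helper83.EW

open VC VF Function
open Pool.Agent.Helper51.EW

universe u

variable {k : Type u} [Field k] [IsAlgClosed k] [Good k] {W : Wei k}

section path

variable {φ : W.surface.Pt × W.surface.Pt → ℂ} {a b : k} {u u' : Fin 2 → k} {v v' : k}

/-- The function on pairs of points of the constant curve. -/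
noncomputable def G (φ : W.surface.Pt × W.surface.Pt → ℂ) (u u' : Fin 2 → k) (v v' : k)
    (x y x' y' : k) : ℂ :=
  φ (apt W u (x * v ^ 2) (y * v ^ 3), apt W u' (x' * v' ^ 2) (y' * v' ^ 3))

lemma G_zero_left (h1 : ∀ p q, φ (neg p, q) = -φ (p, q)) (hu : u ≠ 0)
    (hA : MvPolynomial.aeval u W.A = a * v ^ 4) (hB : MvPolynomial.aeval u W.B = b * v ^ 6)
    {x y : k} (hP : y ^ 2 = x ^ 3 + a * x + b) (hy : y = 0) (x' y' : k) :
    G φ u u' v v' x y x' y' = 0 := by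
  subst hy
  unfold G
  have h0 := tw_eqn hA hB hP
  rw [zero_mul] at h0 ⊢
  have h2 := h1 (apt W u (x * v ^ 2) 0) (apt W u' (x' * v' ^ 2) (y' * v' ^ 3))
  rw [neg_fixed hu h0] at h2
  have h3 : (2 : ℂ) * φ (apt W u (x * v ^ 2) 0, apt W u' (x' * v' ^ 2) (y' * v' ^ 3)) = 0 := by
    linear_combination h2
  exact (mul_eq_zero.mp h3).resolve_left two_ne_zero

lemma G_zero_right (h2 : ∀ p q, φ (p, neg q) = -φ (p, q)) (hu' : u' ≠ 0)
    (hA' : MvPolynomial.aeval u' W.A = a * v' ^ 4) (hB' : MvPolynomial.aeval u' W.B = b * v' ^ 6)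
    {x' y' : k} (hQ : y' ^ 2 = x' ^ 3 + a * x' + b) (hy : y' = 0) (x y : k) :
    G φ u u' v v' x y x' y' = 0 := by
  subst hy
  unfold G
  have h0 := tw_eqn hA' hB' hQ
  rw [zero_mul] at h0 ⊢
  have h3 := h2 (apt W u (x * v ^ 2) (y * v ^ 3)) (apt W u' (x' * v' ^ 2) 0)
  rw [neg_fixed hu' h0] at h3
  have h4 : (2 : ℂ) * φ (apt W u (x * v ^ 2) (y * v ^ 3), apt W u' (x' * v' ^ 2) 0) = 0 := by
    linear_combination h3
  exact (mul_eq_zero.mp h4).resolve_left two_ne_zero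

lemma G_neg_left (h1 : ∀ p q, φ (neg p, q) = -φ (p, q)) (hu : u ≠ 0)
    (hA : MvPolynomial.aeval u W.A = a * v ^ 4) (hB : MvPolynomial.aeval u W.B = b * v ^ 6)
    {x y : k} (hP : y ^ 2 = x ^ 3 + a * x + b) (x' y' : k) :
    G φ u u' v v' x (-y) x' y' = -G φ u u' v v' x y x' y' := by
  unfold G
  rw [neg_mul, ← neg_apt hu (tw_eqn hA hB hP), h1]

lemma G_neg_right (h2 : ∀ p q, φ (p, neg q) = -φ (p, q)) (hu' : u' ≠ 0)
    (hA' : MvPolynomial.aeval u' W.A = a * v' ^ 4) (hB' : MvPolynomial.aeval u' W.B = b * v' ^ 6)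
    {x' y' : k} (hQ : y' ^ 2 = x' ^ 3 + a * x' + b) (x y : k) :
    G φ u u' v v' x y x' (-y') = -G φ u u' v v' x y x' y' := by
  unfold G
  rw [neg_mul, ← neg_apt hu' (tw_eqn hA' hB' hQ), h2]

/-- The function on the pairs of points on a line through the fixed point `(X, Y)` is
constant. -/
theorem line_path (h : Kills (W.surface.prod W.surface) φ)
    (hu : u ≠ 0) (hu' : u' ≠ 0)
    (hA : MvPolynomial.aeval u W.A = a * v ^ 4) (hB : MvPolynomial.aeval u W.B = b * v ^ 6)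
    (hA' : MvPolynomial.aeval u' W.A = a * v' ^ 4) (hB' : MvPolynomial.aeval u' W.B = b * v' ^ 6)
    {X Y : k} (hR : Y ^ 2 = X ^ 3 + a * X + b) {t₀ t₁ : k} (ht : t₀ ≠ t₁) {c₀ c₁ : ℂ}
    (H₀ : ∀ x x' : k, x + x' = t₀ ^ 2 - X → x * x' = X ^ 2 + a + t₀ ^ 2 * X - 2 * t₀ * Y →
      G φ u u' v v' x (Y + t₀ * (x - X)) x' (Y + t₀ * (x' - X)) +
        G φ u u' v v' x' (Y + t₀ * (x' - X)) x (Y + t₀ * (x - X)) = c₀)
    (H₁ : ∀ x x' : k, x + x' = t₁ ^ 2 - X → x * x' = X ^ 2 + a + t₁ ^ 2 * X - 2 * t₁ * Y →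
      G φ u u' v v' x (Y + t₁ * (x - X)) x' (Y + t₁ * (x' - X)) +
        G φ u u' v v' x' (Y + t₁ * (x' - X)) x (Y + t₁ * (x - X)) = c₁) : c₀ = c₁ := by
  -- the discriminant of the quadratic equation
  obtain ⟨Δ, hΔ⟩ : ∃ Δ : Polynomial k, Δ = (Polynomial.X ^ 2 - Polynomial.C X) ^ 2 -
    Polynomial.C 4 * (Polynomial.C (X ^ 2 + a) + Polynomial.X ^ 2 * Polynomial.C X -
      Polynomial.C 2 * Polynomial.X * Polynomial.C Y) := ⟨_, rfl⟩
  obtain ⟨K, _, _, τ, y, hK, hτ, hy⟩ := exists_poly_roots (k := k) two_ne_zero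
    (fun _ : Fin 1 => Δ)
  have hdel : y 0 ^ 2 = (τ ^ 2 - algebraMap k K X) ^ 2 -
      4 * (algebraMap k K (X ^ 2 + a) + τ ^ 2 * algebraMap k K X -
        2 * τ * algebraMap k K Y) := by
    rw [hy 0, hΔ]
    simp only [map_sub, map_mul, map_add, map_pow, Polynomial.aeval_X, Polynomial.aeval_C,
      map_ofNat]
  have h2K : (2 : K) ≠ 0 := by
    have : Good K := Good.ext k
    exact two_ne_zero
  set ι := algebraMap k K with hι
  obtain ⟨d, hd⟩ : ∃ d : K, d = y 0 := ⟨_, rfl⟩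
  rw [← hd] at hdel
  obtain ⟨x₁, hx₁⟩ : ∃ x₁ : K, x₁ = ι 2⁻¹ * (τ ^ 2 - ι X + d) := ⟨_, rfl⟩
  obtain ⟨x₂, hx₂⟩ : ∃ x₂ : K, x₂ = ι 2⁻¹ * (τ ^ 2 - ι X - d) := ⟨_, rfl⟩
  have hι2 : ι 2⁻¹ * 2 = 1 := by
    have : ι (2⁻¹ * 2) = 1 := by
      rw [inv_mul_cancel₀ (two_ne_zero : (2 : k) ≠ 0), map_one]
    rw [← this, map_mul, map_ofNat]
  have hsum : x₁ + x₂ = τ ^ 2 - ι X := by
    rw [hx₁, hx₂]; linear_combination (τ ^ 2 - ι X) * hι2
  have hprod : x₁ * x₂ = ι X ^ 2 + ι a + τ ^ 2 * ι X - 2 * τ * ι Y := by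
    rw [hx₁, hx₂]
    have e : ι 2⁻¹ * (τ ^ 2 - ι X + d) * (ι 2⁻¹ * (τ ^ 2 - ι X - d)) =
        ι 2⁻¹ ^ 2 * ((τ ^ 2 - ι X) ^ 2 - d ^ 2) := by ring
    rw [e, hdel]
    rw [map_add, map_pow]
    linear_combination (ι X ^ 2 + ι a + τ ^ 2 * ι X - 2 * τ * ι Y) * (ι 2⁻¹ * 2 + 1) * hι2
  have hRK : ι Y ^ 2 = ι X ^ 3 + ι a * ι X + ι b := by
    have := congrArg ι hR
    simpa only [map_add, map_mul, map_pow] using this
  obtain ⟨f, hf⟩ : ∃ f : K → K, ∀ x, f x = ι Y + τ * (x - ι X) := ⟨_, fun _ => rfl⟩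
  have hcurve : ∀ x : K, x ^ 2 + (ι X - τ ^ 2) * x + (ι X ^ 2 + ι a + τ ^ 2 * ι X - 2 * τ * ι Y) = 0 →
      f x ^ 2 = x ^ 3 + ι a * x + ι b := by
    intro x hx
    rw [hf]
    linear_combination hRK - (x - ι X) * hx
  have hq₁ : f x₁ ^ 2 = x₁ ^ 3 + ι a * x₁ + ι b := by
    apply hcurve
    linear_combination x₁ * hsum - hprod
  have hq₂ : f x₂ ^ 2 = x₂ ^ 3 + ι a * x₂ + ι b := by
    apply hcurve
    linear_combination x₂ * hsum - hprod
  -- twisted equations over `K`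
  have hKA : ∀ {u : Fin 2 → k} {v : k}, MvPolynomial.aeval u W.A = a * v ^ 4 →
      MvPolynomial.aeval (fun i => ι (u i)) W.A = ι a * ι v ^ 4 := by
    intro u v h
    have e := MvPolynomial.aeval_algebraMap_apply K u W.A
    change MvPolynomial.aeval (fun i => ι (u i)) W.A = ι _ at e
    rw [e, h, map_mul, map_pow]
  have hKB : ∀ {u : Fin 2 → k} {v : k}, MvPolynomial.aeval u W.B = b * v ^ 6 →
      MvPolynomial.aeval (fun i => ι (u i)) W.B = ι b * ι v ^ 6 := by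
    intro u v h
    have e := MvPolynomial.aeval_algebraMap_apply K u W.B
    change MvPolynomial.aeval (fun i => ι (u i)) W.B = ι _ at e
    rw [e, h, map_mul, map_pow]
  let c : ((W.surface.prod W.surface).prod (W.surface.prod W.surface)).Mor K :=
    ((apt W (fun i => ι (u i)) (x₁ * ι v ^ 2) (f x₁ * ι v ^ 3),
      apt W (fun i => ι (u' i)) (x₂ * ι v' ^ 2) (f x₂ * ι v' ^ 3)),
     (apt W (fun i => ι (u i)) (x₂ * ι v ^ 2) (f x₂ * ι v ^ 3),
      apt W (fun i => ι (u' i)) (x₁ * ι v' ^ 2) (f x₁ * ι v' ^ 3)))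
  have hval : ∀ (t : k) (w : Place k K), IsRes w τ t → ∃ x x' : k, x + x' = t ^ 2 - X ∧
      x * x' = X ^ 2 + a + t ^ 2 * X - 2 * t * Y ∧
      φ (((W.surface.prod W.surface).prod (W.surface.prod W.surface)).eval hK c w).1 +
        φ (((W.surface.prod W.surface).prod (W.surface.prod W.surface)).eval hK c w).2 =
      G φ u u' v v' x (Y + t * (x - X)) x' (Y + t * (x' - X)) +
        G φ u u' v v' x' (Y + t * (x' - X)) x (Y + t * (x - X)) := by
    intro t w hw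
    have hdd : IsRes w (d ^ 2) ((t ^ 2 - X) ^ 2 - 4 * (X ^ 2 + a + t ^ 2 * X - 2 * t * Y)) := by
      rw [hd, hy 0]
      have := hw.poly (p := Δ)
      have e : Δ.eval t = (t ^ 2 - X) ^ 2 - 4 * (X ^ 2 + a + t ^ 2 * X - 2 * t * Y) := by
        rw [hΔ]
        simp only [Polynomial.eval_sub, Polynomial.eval_mul, Polynomial.eval_add,
          Polynomial.eval_pow, Polynomial.eval_X, Polynomial.eval_C]
      rwa [e] at this
    obtain ⟨e, he, he2⟩ := exists_res_of_pow hK two_ne_zero hdd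
    have r₁ : IsRes w x₁ (2⁻¹ * (t ^ 2 - X + e)) := by
      rw [hx₁]
      exact (isRes_const _).mul (((hw.pow 2).sub (isRes_const X)).add he)
    have r₂ : IsRes w x₂ (2⁻¹ * (t ^ 2 - X - e)) := by
      rw [hx₂]
      exact (isRes_const _).mul (((hw.pow 2).sub (isRes_const X)).sub he)
    have h2 : (2 : k)⁻¹ * 2 = 1 := inv_mul_cancel₀ two_ne_zero
    have rf : ∀ {x : K} {x0 : k}, IsRes w x x0 → IsRes w (f x) (Y + t * (x0 - X)) := by
      intro x x0 hx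
      rw [hf]
      exact (isRes_const Y).add (hw.mul (hx.sub (isRes_const X)))
    refine ⟨2⁻¹ * (t ^ 2 - X + e), 2⁻¹ * (t ^ 2 - X - e), ?_, ?_, ?_⟩
    · linear_combination (t ^ 2 - X) * h2
    · have e1 : (2 : k)⁻¹ * (t ^ 2 - X + e) * (2⁻¹ * (t ^ 2 - X - e)) =
          (2 : k)⁻¹ ^ 2 * ((t ^ 2 - X) ^ 2 - e ^ 2) := by ring
      rw [e1, he2]
      linear_combination (X ^ 2 + a + t ^ 2 * X - 2 * t * Y) * ((2 : k)⁻¹ * 2 + 1) * h2
    · have ev : ∀ {u : Fin 2 → k} {v : k} (hu : u ≠ 0)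
          (hA : MvPolynomial.aeval u W.A = a * v ^ 4) (hB : MvPolynomial.aeval u W.B = b * v ^ 6)
          {x : K} {x0 : k}, f x ^ 2 = x ^ 3 + ι a * x + ι b → IsRes w x x0 →
          W.surface.eval hK (apt W (fun i => ι (u i)) (x * ι v ^ 2) (f x * ι v ^ 3)) w =
            apt W u (x0 * v ^ 2) ((Y + t * (x0 - X)) * v ^ 3) := by
        intro u v hu hA hB x x0 hx hres
        apply eval_apt hK w (tw_eqn (hKA hA) (hKB hB) hx) hu (fun i => isRes_const _)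
        · exact hres.mul ((isRes_const v).pow 2)
        · exact (rf hres).mul ((isRes_const v).pow 3)
      change φ (W.surface.eval hK (apt W (fun i => ι (u i)) (x₁ * ι v ^ 2) (f x₁ * ι v ^ 3)) w,
          W.surface.eval hK (apt W (fun i => ι (u' i)) (x₂ * ι v' ^ 2) (f x₂ * ι v' ^ 3)) w) +
        φ (W.surface.eval hK (apt W (fun i => ι (u i)) (x₂ * ι v ^ 2) (f x₂ * ι v ^ 3)) w,
          W.surface.eval hK (apt W (fun i => ι (u' i)) (x₁ * ι v' ^ 2) (f x₁ * ι v' ^ 3)) w) = _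
      rw [ev hu hA hB hq₁ r₁, ev hu' hA' hB' hq₂ r₂, ev hu hA hB hq₂ r₂, ev hu' hA' hB' hq₁ r₁]
      rfl
  refine path (kills_sum h h) hK c hτ ht (fun w hw => ?_) (fun w hw => ?_)
  · obtain ⟨x, x', e1, e2, e3⟩ := hval t₀ w hw
    rw [e3]
    exact H₀ x x' e1 e2
  · obtain ⟨x, x', e1, e2, e3⟩ := hval t₁ w hw
    rw [e3]
    exact H₁ x x' e1 e2

/-- The main case: the line through `(x, y)` and `(x', y')` has slope `μ`. -/
theorem lines_of_slope (h : Kills (W.surface.prod W.surface) φ)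
    (h1 : ∀ p q, φ (neg p, q) = -φ (p, q)) (h2 : ∀ p q, φ (p, neg q) = -φ (p, q))
    (hE : 4 * a ^ 3 + 27 * b ^ 2 ≠ 0) (hu : u ≠ 0) (hu' : u' ≠ 0)
    (hA : MvPolynomial.aeval u W.A = a * v ^ 4) (hB : MvPolynomial.aeval u W.B = b * v ^ 6)
    (hA' : MvPolynomial.aeval u' W.A = a * v' ^ 4) (hB' : MvPolynomial.aeval u' W.B = b * v' ^ 6)
    {x y x' y' : k} (hP : y ^ 2 = x ^ 3 + a * x + b)
    (hy : y ≠ 0) (hy' : y' ≠ 0) {μ : k} (hl : y' = y + μ * (x' - x))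
    (hm : 2 * μ * y = x ^ 2 + x * x' + x' ^ 2 + a - μ ^ 2 * (x' - x)) :
    G φ u u' v v' x y x' y' + G φ u u' v v' x' y' x y = 0 := by
  obtain ⟨e, he, hs, hp, hr⟩ := exists_roots hE
  have hroot : ∀ i, e i ^ 3 + a * e i + b = 0 := by
    intro i
    have hb : b = -(e 0 * e 1 * e 2) := by rw [hr, neg_neg]
    rw [hb, ← hp]
    fin_cases i
    · change e 0 ^ 3 + _ * e 0 + _ = 0
      linear_combination e 0 ^ 2 * hs
    · change e 1 ^ 3 + _ * e 1 + _ = 0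
      linear_combination e 1 ^ 2 * hs
    · change e 2 ^ 3 + _ * e 2 + _ = 0
      linear_combination e 2 ^ 2 * hs
  obtain ⟨X, hX⟩ : ∃ X : k, X = μ ^ 2 - x - x' := ⟨_, rfl⟩
  obtain ⟨Y, hY⟩ : ∃ Y : k, Y = y + μ * (X - x) := ⟨_, rfl⟩
  have hR : Y ^ 2 = X ^ 3 + a * X + b := by
    rw [hY]
    linear_combination hP + (X - x) * hm - (X - x) * (X - x') * hX
  obtain ⟨i, hi⟩ : ∃ i, e i ≠ X := by
    by_contra hcon
    push Not at hcon
    exact absurd (he ((hcon 0).trans (hcon 1).symm)) (by decide)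
  obtain ⟨ε, hε⟩ : ∃ ε : k, ε = e i := ⟨_, rfl⟩
  rw [← hε] at hi
  have hεr : ε ^ 3 + a * ε + b = 0 := by rw [hε]; exact hroot i
  have hd : X - ε ≠ 0 := sub_ne_zero.mpr (Ne.symm hi)
  obtain ⟨t₁, ht₁'⟩ : ∃ t₁ : k, t₁ * (X - ε) = Y := ⟨Y / (X - ε), div_mul_cancel₀ _ hd⟩
  have hεq : ε ^ 2 + (X - t₁ ^ 2) * ε + (X ^ 2 + a + t₁ ^ 2 * X - 2 * t₁ * Y) = 0 := by
    have h3 : (ε - X) * (ε ^ 2 + (X - t₁ ^ 2) * ε + (X ^ 2 + a + t₁ ^ 2 * X - 2 * t₁ * Y)) = 0 := by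
      linear_combination hεr + hR - (t₁ * (X - ε) - Y) * ht₁'
    rcases mul_eq_zero.mp h3 with h3 | h3
    · exact absurd (sub_eq_zero.mp h3) hi
    · exact h3
  have hxx : x * x' = X ^ 2 + a + μ ^ 2 * X - 2 * μ * Y := by
    rw [hY]
    linear_combination hm - (X - x - x') * hX
  have hYx : Y + μ * (x - X) = y := by rw [hY]; ring
  have hYx' : Y + μ * (x' - X) = y' := by rw [hY, hl]; ring
  -- the two slopes are different
  have hne : μ ≠ t₁ := by
    rintro hμ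
    have h3 : (ε - x) * (ε - x') = 0 := by
      rw [← hμ] at hεq
      linear_combination hεq + hxx - ε * hX
    have hz : Y + μ * (ε - X) = 0 := by rw [hμ]; linear_combination -ht₁'
    rcases mul_eq_zero.mp h3 with h3 | h3
    · rw [sub_eq_zero.mp h3, hYx] at hz
      exact hy hz
    · rw [sub_eq_zero.mp h3, hYx'] at hz
      exact hy' hz
  have hcu : ∀ {t z : k}, z ^ 2 + (X - t ^ 2) * z + (X ^ 2 + a + t ^ 2 * X - 2 * t * Y) = 0 →
      (Y + t * (z - X)) ^ 2 = z ^ 3 + a * z + b := by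
    intro t z hz
    linear_combination hR - (z - X) * hz
  refine line_path h hu hu' hA hB hA' hB' hR hne ?_ ?_
  · intro z z' e1 e2
    have e1' : z + z' = x + x' := by rw [e1, hX]; ring
    rcases pair_eq e1' (e2.trans hxx.symm) with ⟨rfl, rfl⟩ | ⟨rfl, rfl⟩
    · rw [hYx, hYx']
    · rw [hYx, hYx', add_comm]
  · intro z z' e1 e2
    have e3 : (ε - z) * (ε - z') = 0 := by linear_combination hεq - ε * e1 + e2
    have cz : (Y + t₁ * (z - X)) ^ 2 = z ^ 3 + a * z + b := by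
      apply hcu
      linear_combination z * e1 - e2
    have cz' : (Y + t₁ * (z' - X)) ^ 2 = z' ^ 3 + a * z' + b := by
      apply hcu
      linear_combination z' * e1 - e2
    rcases mul_eq_zero.mp e3 with e3 | e3
    · have ez : Y + t₁ * (z - X) = 0 := by
        rw [← sub_eq_zero.mp e3]; linear_combination -ht₁'
      rw [G_zero_left h1 hu hA hB cz ez, G_zero_right h2 hu' hA' hB' cz ez, add_zero]
    · have ez : Y + t₁ * (z' - X) = 0 := by
        rw [← sub_eq_zero.mp e3]; linear_combination -ht₁'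
      rw [G_zero_right h2 hu' hA' hB' cz' ez, G_zero_left h1 hu hA hB cz' ez, add_zero]

end path

/-- Block LINES. -/
theorem lines {φ : W.surface.Pt × W.surface.Pt → ℂ}
    (h : Kills (W.surface.prod W.surface) φ) (h1 : ∀ p q, φ (neg p, q) = -φ (p, q))
    (h2 : ∀ p q, φ (p, neg q) = -φ (p, q)) {a b : k} (hE : 4 * a ^ 3 + 27 * b ^ 2 ≠ 0)
    {u u' : Fin 2 → k} (hu : u ≠ 0) (hu' : u' ≠ 0) {v v' : k}
    (hA : MvPolynomial.aeval u W.A = a * v ^ 4) (hB : MvPolynomial.aeval u W.B = b * v ^ 6)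
    (hA' : MvPolynomial.aeval u' W.A = a * v' ^ 4) (hB' : MvPolynomial.aeval u' W.B = b * v' ^ 6)
    {x y x' y' : k} (hP : y ^ 2 = x ^ 3 + a * x + b) (hQ : y' ^ 2 = x' ^ 3 + a * x' + b) :
    φ (apt W u (x * v ^ 2) (y * v ^ 3), apt W u' (x' * v' ^ 2) (y' * v' ^ 3)) +
      φ (apt W u (x' * v ^ 2) (y' * v ^ 3), apt W u' (x * v' ^ 2) (y * v' ^ 3)) = 0 := by
  change G φ u u' v v' x y x' y' + G φ u u' v v' x' y' x y = 0
  by_cases hy : y = 0
  · rw [G_zero_left h1 hu hA hB hP hy, G_zero_right h2 hu' hA' hB' hP hy, add_zero]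
  by_cases hy' : y' = 0
  · rw [G_zero_right h2 hu' hA' hB' hQ hy', G_zero_left h1 hu hA hB hQ hy', add_zero]
  have htan : ∀ {x y : k}, y ^ 2 = x ^ 3 + a * x + b → y ≠ 0 →
      G φ u u' v v' x y x y + G φ u u' v v' x y x y = 0 := by
    intro x y hP hy
    refine lines_of_slope h h1 h2 hE hu hu' hA hB hA' hB' hP hy hy
      (μ := (3 * x ^ 2 + a) / (2 * y)) (by ring) ?_
    have h3 : (2 : k) * y ≠ 0 := mul_ne_zero two_ne_zero hy
    have h4 : (3 * x ^ 2 + a) / (2 * y) * (2 * y) = 3 * x ^ 2 + a := div_mul_cancel₀ _ h3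
    linear_combination h4
  by_cases hxx : x = x'
  · subst hxx
    have h3 : (y' - y) * (y' + y) = 0 := by linear_combination hQ - hP
    rcases mul_eq_zero.mp h3 with h3 | h3
    · rw [sub_eq_zero.mp h3]
      exact htan hP hy
    · have h4 : y' = -y := eq_neg_of_add_eq_zero_left h3
      rw [h4, G_neg_right h2 hu' hA' hB' hP, G_neg_left h1 hu hA hB hP]
      have := htan hP hy
      linear_combination -this
  · have hd : x' - x ≠ 0 := sub_ne_zero.mpr (Ne.symm hxx)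
    have h4 : (y' - y) / (x' - x) * (x' - x) = y' - y := div_mul_cancel₀ _ hd
    refine lines_of_slope h h1 h2 hE hu hu' hA hB hA' hB' hP hy hy'
      (μ := (y' - y) / (x' - x)) (by rw [h4]; ring) ?_
    set μ := (y' - y) / (x' - x) with hμ
    have h5 : (x' - x) * (2 * μ * y - (x ^ 2 + x * x' + x' ^ 2 + a - μ ^ 2 * (x' - x))) = 0 := by
      linear_combination (2 * y + (μ * (x' - x) + (y' - y))) * h4 + hQ - hP
    exact sub_eq_zero.mp ((mul_eq_zero.mp h5).resolve_left hd)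

end Pool.Agent.Helper83.EW

end CX
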