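import Mathlib
import Pool.Agent.Helper40.CX.H83EW.Red
import Pool.Agent.Helper40.CX.H51EW.Data
import Pool.Agent.Helper40.CX.Good2

namespace CX

set_option linter.unusedSectionVars false

namespace Pool.Agent.Helper83.EW

open VC VF
open Pool.Agent.Helper51.EW

universe u

section core

variable {k : Type u} [Field k] [IsAlgClosed k] [Good k]

/-- Construction of the data of the core. -/
theorem mk_core (W : Wei k) (hN : 0 < W.N) (E : Bas k) {a b : k}
    (hE : 4 * a ^ 3 + 27 * b ^ 2 ≠ 0) {m e4 e6 : ℕ} (hm0 : 0 < m) (hm : Even m)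
    (h4 : a = 0 ∨ m * e4 = 4) (h6 : b = 0 ∨ m * e6 = 6) {f : Polynomial k} (hf0 : f ≠ 0)
    (hf : f.natDegree < m * W.N) (h1 : ∀ r, ¬ (Polynomial.X - Polynomial.C r) ^ m ∣ f)
    (h2 : ¬ f.natDegree ≤ m * (W.N - 1)) (hA1 : MvPolynomial.eval E.e1 W.A = 0)
    (hB1 : MvPolynomial.eval E.e1 W.B = 0)
    (hA : ∀ (K : Type u) [Field K] [Algebra k K] (T v : K), v ^ m = Polynomial.aeval T f →
      Polynomial.aeval T (deh E W.A) = algebraMap k K a * v ^ 4)
    (hB : ∀ (K : Type u) [Field K] [Algebra k K] (T v : K), v ^ m = Polynomial.aeval T f →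
      Polynomial.aeval T (deh E W.B) = algebraMap k K b * v ^ 6) : Nonempty (Core W) :=
  ⟨{ e0 := E.e0
     e1 := E.e1
     span := bas_span E
     a := a
     b := b
     hE := hE
     m := m
     hm0 := hm0.ne'
     hm := hm
     e4 := e4
     e6 := e6
     h4 := h4
     h6 := h6
     f := f
     hf0 := hf0
     hf := hf
     roots := many_roots hf0 hm0 hN h1 (not_le.mp h2)
     A1 := hA1
     B1 := hB1
     A0 := fun K _ _ T v h => by rw [← aeval_deh, hA K T v h]
     B0 := fun K _ _ T v h => by rw [← aeval_deh, hB K T v h] }⟩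

/-- Block RED. -/
theorem exists_core (W : Wei k) (hN : 0 < W.N) (hΔ : 4 * W.A ^ 3 + 27 * W.B ^ 2 ≠ 0)
    (hmin : ∀ l : MvPolynomial (Fin 2) k, l.IsHomogeneous 1 → ¬ (l ^ 4 ∣ W.A ∧ l ^ 6 ∣ W.B))
    (hj : ∃ c d : k, (c ≠ 0 ∨ d ≠ 0) ∧
      MvPolynomial.C c * W.A ^ 3 = MvPolynomial.C d * W.B ^ 2) : Nonempty (Core W) := by
  by_cases hA0 : W.A = 0
  · -- `A = 0`
    have hB0 : W.B ≠ 0 := by
      intro h
      apply hΔ
      rw [hA0, h]
      ring
    obtain ⟨r, hr, hr'⟩ := exists_zero (by omega : 0 < 6 * W.N) W.hB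
    obtain ⟨E, rfl⟩ := exists_bas hr
    refine mk_core W hN E (a := 0) (b := 1) (m := 6) (e4 := 0) (e6 := 1) (f := deh E W.B)
      (by norm_num) (by norm_num) ⟨3, rfl⟩ (Or.inl rfl) (Or.inr rfl) (deh_ne_zero E W.hB hB0)
      (natDegree_deh_lt E W.hB (by omega) hr') ?_ ?_ ?_ hr' ?_ ?_
    · intro r h
      exact hmin _ (lf_hom E r) ⟨by rw [hA0]; exact dvd_zero _,
        lf_dvd E W.hB (deh_ne_zero E W.hB hB0) h⟩
    · intro h
      exact hmin _ (s_hom E) ⟨by rw [hA0]; exact dvd_zero _,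
        s_dvd E W.hB (by omega) (h.trans (by omega))⟩
    · rw [hA0, map_zero]
    · intro K _ _ T v _
      rw [hA0]
      simp [deh]
    · intro K _ _ T v h
      rw [← h, map_one, one_mul]
  by_cases hB0 : W.B = 0
  · obtain ⟨r, hr, hr'⟩ := exists_zero (by omega : 0 < 4 * W.N) W.hA
    obtain ⟨E, rfl⟩ := exists_bas hr
    refine mk_core W hN E (a := 1) (b := 0) (m := 4) (e4 := 1) (e6 := 0) (f := deh E W.A)
      (by norm_num) (by norm_num) ⟨2, rfl⟩ (Or.inr rfl) (Or.inl rfl) (deh_ne_zero E W.hA hA0)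
      (natDegree_deh_lt E W.hA (by omega) hr') ?_ ?_ hr' ?_ ?_ ?_
    · intro r h
      exact hmin _ (lf_hom E r) ⟨lf_dvd E W.hA (deh_ne_zero E W.hA hA0) h,
        by rw [hB0]; exact dvd_zero _⟩
    · intro h
      exact hmin _ (s_hom E) ⟨s_dvd E W.hA (by omega) (h.trans (by omega)),
        by rw [hB0]; exact dvd_zero _⟩
    · rw [hB0, map_zero]
    · intro K _ _ T v h
      rw [← h, map_one, one_mul]
    · intro K _ _ T v _
      rw [hB0]
      simp [deh]
  -- both nonzero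
  obtain ⟨c, d, hcd, hj⟩ := hj
  have hd0 : d ≠ 0 := by
    intro h
    rw [h, MvPolynomial.C_0, zero_mul, mul_eq_zero] at hj
    rcases hj with hj | hj
    · rcases hcd with h1 | h1
      · exact h1 ((MvPolynomial.C_eq_zero).mp hj)
      · exact h1 h
    · exact hA0 (pow_eq_zero_iff (by norm_num) |>.mp hj)
  have hc0 : c ≠ 0 := by
    intro h
    rw [h, MvPolynomial.C_0, zero_mul, eq_comm, mul_eq_zero] at hj
    rcases hj with hj | hj
    · exact hd0 ((MvPolynomial.C_eq_zero).mp hj)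
    · exact hB0 (pow_eq_zero_iff (by norm_num) |>.mp hj)
  set κ : k := d / c with hκ
  have hκ0 : κ ≠ 0 := div_ne_zero hd0 hc0
  have hj' : W.A ^ 3 = MvPolynomial.C κ * W.B ^ 2 := by
    have h1 : MvPolynomial.C c⁻¹ * (MvPolynomial.C c * W.A ^ 3) =
        MvPolynomial.C c⁻¹ * (MvPolynomial.C d * W.B ^ 2) := by rw [hj]
    rw [← mul_assoc, ← mul_assoc, ← MvPolynomial.C_mul, ← MvPolynomial.C_mul,
      inv_mul_cancel₀ hc0, MvPolynomial.C_1, one_mul] at h1
    rw [h1, hκ, div_eq_inv_mul]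
  have hκE : 4 * κ ^ 3 + 27 * κ ^ 2 ≠ 0 := by
    intro h
    have h1 : 4 * κ + 27 = 0 := by
      have : κ ^ 2 * (4 * κ + 27) = 0 := by linear_combination h
      exact (mul_eq_zero.mp this).resolve_left (pow_ne_zero _ hκ0)
    apply hΔ
    rw [hj']
    have h2 : (MvPolynomial.C (4 * κ + 27) : MvPolynomial (Fin 2) k) = 0 := by
      rw [h1, MvPolynomial.C_0]
    rw [MvPolynomial.C_add, MvPolynomial.C_mul] at h2
    have e4 : (MvPolynomial.C (4 : k) : MvPolynomial (Fin 2) k) = 4 := map_ofNat _ 4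
    have e27 : (MvPolynomial.C (27 : k) : MvPolynomial (Fin 2) k) = 27 := map_ofNat _ 27
    rw [e4, e27] at h2
    linear_combination W.B ^ 2 * h2
  obtain ⟨r, hr, hr'⟩ := exists_zero (by omega : 0 < 4 * W.N) W.hA
  obtain ⟨E, rfl⟩ := exists_bas hr
  have hBr : MvPolynomial.eval E.e1 W.B = 0 := by
    have h1 := congrArg (MvPolynomial.eval E.e1) hj'
    rw [map_pow, hr', zero_pow (by norm_num), map_mul, map_pow, MvPolynomial.eval_C, eq_comm,
      mul_eq_zero] at h1
    rcases h1 with h1 | h1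
    · exact absurd h1 hκ0
    · exact pow_eq_zero_iff (by norm_num) |>.mp h1
  have hA1 := deh_ne_zero E W.hA hA0
  have hB1 := deh_ne_zero E W.hB hB0
  -- the relation for the dehomogenised forms
  have hrel : deh E W.A ^ 3 = Polynomial.C κ * deh E W.B ^ 2 := by
    have h1 := congrArg (deh E) hj'
    unfold deh at h1 ⊢
    rw [map_pow, map_mul, map_pow, MvPolynomial.algHom_C] at h1
    exact h1
  obtain ⟨g, hg⟩ : deh E W.A ∣ deh E W.B := by
    have h1 : deh E W.A ^ 2 ∣ deh E W.B ^ 2 := by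
      refine ⟨Polynomial.C κ⁻¹ * deh E W.A, ?_⟩
      have h2 : deh E W.A ^ 2 * (Polynomial.C κ⁻¹ * deh E W.A) =
          Polynomial.C κ⁻¹ * deh E W.A ^ 3 := by ring
      rw [h2, hrel, ← mul_assoc, ← Polynomial.C_mul, inv_mul_cancel₀ hκ0, Polynomial.C_1, one_mul]
    exact (IsIntegrallyClosed.pow_dvd_pow_iff two_ne_zero).mp h1
  have hg0 : g ≠ 0 := by
    rintro rfl
    rw [mul_zero] at hg
    exact hB1 hg
  have hAg : deh E W.A = Polynomial.C κ * g ^ 2 := by
    have h1 : deh E W.A ^ 2 * deh E W.A = deh E W.A ^ 2 * (Polynomial.C κ * g ^ 2) := by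
      have h2 : deh E W.A ^ 2 * deh E W.A = deh E W.A ^ 3 := by ring
      rw [h2, hrel, hg]
      ring
    exact mul_left_cancel₀ (pow_ne_zero _ hA1) h1
  have hBg : deh E W.B = Polynomial.C κ * g ^ 3 := by
    rw [hg, hAg]; ring
  have dA : (deh E W.A).natDegree = 2 * g.natDegree := by
    rw [hAg, Polynomial.natDegree_C_mul hκ0, Polynomial.natDegree_pow]
  have dB : (deh E W.B).natDegree = 3 * g.natDegree := by
    rw [hBg, Polynomial.natDegree_C_mul hκ0, Polynomial.natDegree_pow]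
  refine mk_core W hN E (a := κ) (b := κ) (m := 2) (e4 := 2) (e6 := 3) (f := g)
    hκE (by norm_num) ⟨1, rfl⟩ (Or.inr rfl) (Or.inr rfl) hg0 ?_ ?_ ?_ hr' hBr ?_ ?_
  · have h1 := natDegree_deh_lt E W.hA (by omega) hr'
    rw [dA] at h1
    omega
  · intro r h
    refine hmin _ (lf_hom E r) ⟨lf_dvd E W.hA hA1 ?_, lf_dvd E W.hB hB1 ?_⟩
    · rw [hAg]
      apply Dvd.dvd.mul_left
      have := pow_dvd_pow_of_dvd h 2
      rwa [← pow_mul] at this
    · rw [hBg]
      apply Dvd.dvd.mul_left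
      have := pow_dvd_pow_of_dvd h 3
      rwa [← pow_mul] at this
  · intro h
    refine hmin _ (s_hom E) ⟨s_dvd E W.hA (by omega) ?_, s_dvd E W.hB (by omega) ?_⟩
    · rw [dA]; omega
    · rw [dB]; omega
  · intro K _ _ T v h
    rw [hAg, map_mul, map_pow, Polynomial.aeval_C, ← h]
    ring
  · intro K _ _ T v h
    rw [hBg, map_mul, map_pow, Polynomial.aeval_C, ← h]
    ring

end core

end Pool.Agent.Helper83.EW

end CX
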